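import Pool.Graph.R_seed8.H39R2.GonP.Bridge
import Pool.Agent.Helper83.GQ.LocEx

/-!
# Goncharov's polylogarithmic complexes of the global fields `F_q(x)`

For `F = k(x)`, `k` an arbitrary FINITE field, all the complexes `Γ(F,n) ⊗ ℚ`, `n ≥ 2`, are
acyclic (in all degrees).  The same holds for all fields `F` such that every finite subset of `F`
is contained in a subfield of `F` isomorphic to such a field, for instance for `F = k(x)`, `k` any
algebraic extension of `F_p`, and for the perfect closures of `F_q(x)`.
Goncharov's conjecture predicts exactly this, because `K_m(F) ⊗ ℚ = 0` for `m ≥ 2` for these fields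
(Quillen, Harder).

The proof reduces acyclicity to a statement about functionals on `ℚ`-valued antisymmetric
functions of `m + 2` closed points, which is proved by counting the solutions of
`a A + b B + c C = 0` where `A`, `B`, `C` are products of a fixed number of irreducible
polynomials of prescribed large degrees with some prescribed factors, over the fixed finite field
`k` (the circle method over `F_q[t]`, with major and minor arcs; the major arcs use the Riemann
hypothesis for the `L`-functions of the ray class characters of `F_q(t)`, which is proved in
`Pool/Agent/Helper83/GQ/RRH.lean` and the files it imports).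

The definitions of the complexes are in `Pool/Graph/R_seed8/H39R2/GonP/Defs.lean`.
-/

set_option autoImplicit false

namespace Pool.Agent.Results.MP_9c6ec7_al.AcyclicFiniteConstants

open GonP

/-- Every finite subset of `F` is contained in a subfield of `F` which is isomorphic to the field
`k(x)` of rational functions over a finite field `k` (which may depend on the finite subset). -/
def LocallyRational (F : Type) [Field F] : Prop :=
  ∀ s : Finset F, ∃ (k : Type) (_ : Field k) (_ : Finite k) (φ : RatFunc k →+* F),
    ∀ x ∈ s, ∃ y, φ y = x

theorem main (F : Type) [Field F] (h : LocallyRational F) :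
    ∃ D : Differentials F, (∀ D' : Differentials F, D' = D) ∧ D.Acyclic := by
  obtain ⟨⟨D⟩, h1⟩ := Pool.Agent.Helper83.GQ.acyclic_locRatFin F h
  exact ⟨ofD D, fun D' => unique (ofD D) D', ofD_acyclic D (h1 D)⟩

/-- The differentials of the complexes `Γ(F,n) ⊗ ℚ`, `n ≥ 2`, exist and are unique, and all these
complexes are acyclic, for `F = k(x)`, `k` a finite field, and for all fields `F` which are locally
of this form.  Examples of the latter: `k(x)`, `k` any algebraic extension of `F_p`, and the
perfect closure of `k(x)`, `k` finite of characteristic `p`. -/
theorem result :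
    (∀ (k : Type) [Field k] [Finite k],
      ∃ D : Differentials (RatFunc k),
        (∀ D' : Differentials (RatFunc k), D' = D) ∧ D.Acyclic) ∧
    (∀ (F : Type) [Field F], LocallyRational F →
      ∃ D : Differentials F, (∀ D' : Differentials F, D' = D) ∧ D.Acyclic) ∧
    (∀ (p : ℕ) [Fact p.Prime] (k : Type) [Field k] [Algebra (ZMod p) k]
      [Algebra.IsAlgebraic (ZMod p) k], LocallyRational (RatFunc k)) ∧
    ∀ (p : ℕ) [Fact p.Prime] (k : Type) [Field k] [Finite k] [CharP (RatFunc k) p],
      LocallyRational (PerfectClosure (RatFunc k) p) := by
  refine ⟨fun k _ _ => main (RatFunc k) fun s => ⟨k, inferInstance, inferInstance,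
    RingHom.id _, fun x _ => ⟨x, rfl⟩⟩, fun F _ h => main F h, fun p _ k _ _ _ =>
    Pool.Agent.Helper83.GQ.locRatFin_ratFunc p k, fun p _ k _ _ _ =>
    Pool.Agent.Helper83.GQ.locRatFin_perfect k p⟩

end Pool.Agent.Results.MP_9c6ec7_al.AcyclicFiniteConstants
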